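import Pool.Agent.W209.CF.Basic

/-!
Assignment of tokens to slots (Hall's theorem), part of the project CF3.
-/

namespace Pool.Agent.W28.CF3

open Finset Pool.Agent.W209.CF

/-- the slots behind a target -/
def slotsOf {V E : Type} [DecidableEq V] [DecidableEq E] (x : V ⊕ Finset E) :
    Finset (V ⊕ (Finset E × Bool)) :=
  Sum.elim (fun v => {Sum.inl v}) (fun D => {Sum.inr (D, false), Sum.inr (D, true)}) x

/-- number of slots behind a target -/
def wt {V E : Type} (x : V ⊕ Finset E) : ℕ := Sum.elim (fun _ => 1) (fun _ => 2) x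

theorem card_slotsOf {V E : Type} [DecidableEq V] [DecidableEq E] (x : V ⊕ Finset E) :
    (slotsOf x).card = wt x := by
  rcases x with v | D
  · simp [slotsOf, wt]
  · simp only [slotsOf, wt, Sum.elim_inr]
    rw [Finset.card_pair]
    simp

theorem disj_slotsOf {V E : Type} [DecidableEq V] [DecidableEq E] {x y : V ⊕ Finset E}
    (h : x ≠ y) : Disjoint (slotsOf x) (slotsOf y) := by
  rw [Finset.disjoint_left]
  intro a h1 h2
  apply h
  rcases x with v | D <;> rcases y with v' | D' <;>
    simp only [slotsOf, Sum.elim_inl, Sum.elim_inr, mem_singleton, mem_insert] at h1 h2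
  · rw [h1] at h2
    simpa using h2
  · rw [h1] at h2
    simp at h2
  · rw [h2] at h1
    simp at h1
  · rcases h1 with h1 | h1 <;> rw [h1] at h2 <;> simpa using h2

theorem card_uncol {V E : Type} [Fintype V] [DecidableEq V] [Fintype E] [DecidableEq E]
    {inc : E → Finset V} {r : ℕ} (hreg : ∀ v, (univ.filter (fun e => v ∈ inc e)).card = r)
    (s : E → Fin 3) (v : V) :
    (univ.filter (fun e => v ∈ inc e ∧ s e = 0)).card + dg inc s v = r := by
  rw [dg_eq_card, ← hreg v, ← Finset.card_union_of_disjoint]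
  · congr 1
    ext e
    simp only [mem_union, mem_filter, mem_univ, true_and]
    tauto
  · rw [Finset.disjoint_left]
    intro e h1 h2
    simp only [mem_filter, mem_univ, true_and] at h1 h2
    exact h2.2 h1.2

theorem hall : S_U → S_F8 → S_F11 → S_hall := by
  intro hU h8 h11 V E _ _ _ _ inc r hr h3 hreg s X hopt hw ord hord
  classical
  have hL0 : ∀ u ∈ LL inc s X, dg inc s u = 0 := by
    intro u hu
    have := (mem_filter.1 hu).1
    rwa [mem_holes] at this
  -- the usable hyperedges
  have hR : ∀ u : {u // u ∈ LL inc s X}, ∃ R : Finset E,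
      (∀ f ∈ R, Us inc s u.1 f) ∧ R.card = r - 2 := by
    intro u
    obtain ⟨R, h1, h2⟩ := hU V E inc h3 s X hopt u.1 u.2 (hw u.1 u.2)
    rw [hreg] at h2
    obtain ⟨R', h4, h5⟩ := Finset.exists_subset_card_eq (show r - 2 ≤ R.card by omega)
    exact ⟨R', fun f hf => h1 f (h4 hf), h5⟩
  choose R hRU hRc using hR
  -- the targets
  have htau : ∀ f : E, ∃ x : V ⊕ Finset E,
      (∀ v, x = Sum.inl v → v ∈ inc f ∧ dg inc s v = 2 ∧
        ∀ y ∈ inc f, dg inc s y = 2 → ord y ≤ ord v) ∧
      (∀ D, x = Sum.inr D → (¬ ∃ v ∈ inc f, dg inc s v = 2) ∧ D = comp inc s f) := by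
    intro f
    by_cases h : ∃ v ∈ inc f, dg inc s v = 2
    · obtain ⟨v, hv, hv2⟩ := h
      obtain ⟨w, hw1, hw2⟩ := Finset.exists_max_image
        ((inc f).filter (fun v => dg inc s v = 2)) ord ⟨v, mem_filter.2 ⟨hv, hv2⟩⟩
      refine ⟨Sum.inl w, ?_, ?_⟩
      · rintro v' hv'
        have hv' : w = v' := Sum.inl.inj hv'
        subst hv'
        refine ⟨(mem_filter.1 hw1).1, (mem_filter.1 hw1).2, ?_⟩
        intro y hy hy2
        exact hw2 y (mem_filter.2 ⟨hy, hy2⟩)
      · intro D hD
        cases hD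
    · refine ⟨Sum.inr (comp inc s f), ?_, ?_⟩
      · intro v hv
        cases hv
      · intro D hD
        exact ⟨h, (Sum.inr.inj hD).symm⟩
  choose tau htl htr using htau
  have hmemU : ∀ (u : {u // u ∈ LL inc s X}), ∀ f ∈ R u, u.1 ∈ inc f := fun u f hf =>
    (hRU u f hf).1
  have huncol : ∀ (u : {u // u ∈ LL inc s X}), ∀ f ∈ R u, s f = 0 := fun u f hf =>
    dg_eq_zero.1 (hL0 u.1 u.2) f (hmemU u f hf)
  have hEntry : ∀ (u : {u // u ∈ LL inc s X}), ∀ f ∈ R u, ∀ D, tau f = Sum.inr D →
      Entry inc s u.1 f ∧ ¬ weakK inc (KK inc s f) ∧ D = comp inc s f := by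
    intro u f hf D hD
    obtain ⟨h1, h2⟩ := htr f D hD
    rcases (hRU u f hf).2 with h | h
    · exact absurd h h1
    · exact ⟨h.1, h.2, h2⟩
  have hdisj : ∀ u u' : {u // u ∈ LL inc s X}, u ≠ u' → Disjoint (R u) (R u') := by
    intro u u' huu
    rw [Finset.disjoint_left]
    intro f hf hf'
    exact h8 V E inc h3 s X hopt u.1 u.2 u'.1 u'.2 (fun h => huu (Subtype.ext h)) f
      (hmemU u f hf) (hmemU u' f hf')
  -- counting
  have hcount : ∀ (S : Finset {u // u ∈ LL inc s X}) (x : V ⊕ Finset E),
      ((S.biUnion R).filter (fun f => tau f = x)).card ≤ (r - 2) * wt x := by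
    intro S x
    rcases x with v | D
    · have hsub : (S.biUnion R).filter (fun f => tau f = Sum.inl v) ⊆
          univ.filter (fun e => v ∈ inc e ∧ s e = 0) := by
        intro f hf
        obtain ⟨h1, h2⟩ := mem_filter.1 hf
        obtain ⟨u, hu, hfu⟩ := mem_biUnion.1 h1
        exact mem_filter.2 ⟨mem_univ f, (htl f v h2).1, huncol u f hfu⟩
      have hle := Finset.card_le_card hsub
      have hc := card_uncol hreg s v
      simp only [wt, Sum.elim_inl, mul_one]
      by_cases hne : ((S.biUnion R).filter (fun f => tau f = Sum.inl v)) = ∅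
      · rw [hne]
        simp
      · obtain ⟨f, hf⟩ := Finset.nonempty_iff_ne_empty.2 hne
        have h2 := (htl f v (mem_filter.1 hf).2).2.1
        omega
    · simp only [wt, Sum.elim_inr]
      by_cases hsame : ∃ u : {u // u ∈ LL inc s X},
          (S.biUnion R).filter (fun f => tau f = Sum.inr D) ⊆ R u
      · obtain ⟨u, hu⟩ := hsame
        have hle := Finset.card_le_card hu
        rw [hRc u] at hle
        omega
      · by_cases hne : ((S.biUnion R).filter (fun f => tau f = Sum.inr D)) = ∅
        · rw [hne]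
          simp
        · obtain ⟨f1, hf1⟩ := Finset.nonempty_iff_ne_empty.2 hne
          obtain ⟨hf1Q, hf1D⟩ := mem_filter.1 hf1
          obtain ⟨u1, hu1, hf1u⟩ := mem_biUnion.1 hf1Q
          push Not at hsame
          obtain ⟨f2, hf2, hf2n⟩ := Finset.not_subset.1 (hsame u1)
          obtain ⟨hf2Q, hf2D⟩ := mem_filter.1 hf2
          obtain ⟨u2, hu2, hf2u⟩ := mem_biUnion.1 hf2Q
          have hne12 : u1.1 ≠ u2.1 := by
            intro h
            have h' : u1 = u2 := Subtype.ext h
            rw [h'] at hf2n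
            exact hf2n hf2u
          obtain ⟨he1, -, hD1⟩ := hEntry u1 f1 hf1u D hf1D
          obtain ⟨he2, -, hD2⟩ := hEntry u2 f2 hf2u D hf2D
          obtain ⟨a, ha, hau2⟩ : ∃ a ∈ inc f2, a ≠ u2.1 := by
            by_contra hcon
            push Not at hcon
            have : inc f2 ⊆ {u2.1} := fun a ha => mem_singleton.2 (hcon a ha)
            have h5 := Finset.card_le_card this
            rw [h3 f2, Finset.card_singleton] at h5
            omega
          have ha1 : a ∈ inc f1 := h11 V E inc h3 s X hopt u1.1 u1.2 u2.1 u2.2 hne12 f1 f2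
            he1 he2 (hD1.symm.trans hD2) a ha hau2
          have hau1 : a ≠ u1.1 := by
            rintro rfl
            exact h8 V E inc h3 s X hopt u2.1 u2.2 u1.1 u1.2 hne12.symm f2
              (hmemU u2 f2 hf2u) ha
          have hda : dg inc s a = 1 := he1.2.2 a ha1 hau1
          have hsub : (S.biUnion R).filter (fun f => tau f = Sum.inr D) ⊆
              univ.filter (fun e => a ∈ inc e ∧ s e = 0) := by
            intro f hf
            obtain ⟨hfQ, hfD⟩ := mem_filter.1 hf
            obtain ⟨u, hu, hfu⟩ := mem_biUnion.1 hfQ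
            obtain ⟨he, -, hD⟩ := hEntry u f hfu D hfD
            refine mem_filter.2 ⟨mem_univ f, ?_, huncol u f hfu⟩
            by_cases huu : u.1 = u1.1
            · have huu2 : u.1 ≠ u2.1 := by
                rw [huu]
                exact hne12
              exact h11 V E inc h3 s X hopt u.1 u.2 u2.1 u2.2 huu2 f f2
                he he2 (hD.symm.trans hD2) a ha hau2
            · exact h11 V E inc h3 s X hopt u.1 u.2 u1.1 u1.2 huu f f1
                he he1 (hD.symm.trans hD1) a ha1 hau1
          have hle := Finset.card_le_card hsub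
          have hc := card_uncol hreg s a
          omega
  -- Hall
  have hhall : ∀ S : Finset {u // u ∈ LL inc s X},
      S.card ≤ (S.biUnion (fun u => ((R u).image tau).biUnion slotsOf)).card := by
    intro S
    have e1 : S.biUnion (fun u => ((R u).image tau).biUnion slotsOf) =
        ((S.biUnion R).image tau).biUnion slotsOf := by
      ext y
      simp only [mem_biUnion, mem_image]
      constructor
      · rintro ⟨u, hu, x, ⟨f, hf, hx⟩, hy⟩
        exact ⟨x, ⟨f, ⟨u, hu, hf⟩, hx⟩, hy⟩
      · rintro ⟨x, ⟨f, ⟨u, hu, hf⟩, hx⟩, hy⟩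
        exact ⟨u, hu, x, ⟨f, hf, hx⟩, hy⟩
    have e2 : (((S.biUnion R).image tau).biUnion slotsOf).card =
        ∑ x ∈ (S.biUnion R).image tau, wt x := by
      rw [Finset.card_biUnion (fun x _ y _ h => disj_slotsOf h)]
      exact Finset.sum_congr rfl (fun x _ => card_slotsOf x)
    have e3 : (S.biUnion R).card = S.card * (r - 2) := by
      rw [Finset.card_biUnion (fun u _ u' _ h => hdisj u u' h),
        Finset.sum_congr rfl (fun u _ => hRc u), Finset.sum_const, smul_eq_mul]
    have e4 : (S.biUnion R).card ≤ (r - 2) * ∑ x ∈ (S.biUnion R).image tau, wt x := by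
      rw [Finset.card_eq_sum_card_image tau (S.biUnion R), Finset.mul_sum]
      exact Finset.sum_le_sum (fun x _ => hcount S x)
    rw [e1, e2]
    rw [e3, mul_comm] at e4
    exact Nat.le_of_mul_le_mul_left e4 (by omega)
  obtain ⟨F, hFi, hFm⟩ := (Finset.all_card_le_biUnion_card_iff_exists_injective
    (fun u : {u // u ∈ LL inc s X} => ((R u).image tau).biUnion slotsOf)).1 hhall
  -- the chosen hyperedges
  have hG : ∀ u : {u // u ∈ LL inc s X}, ∃ f ∈ R u, F u ∈ slotsOf (tau f) := by
    intro u
    have h1 := hFm u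
    simp only [mem_biUnion, mem_image] at h1
    obtain ⟨x, ⟨f, hf, hx⟩, hy⟩ := h1
    exact ⟨f, hf, by rw [hx]; exact hy⟩
  choose G hGR hGs using hG
  have hdef : ∀ v : V, ∃ e : E, v ∈ inc e := by
    intro v
    have h1 := hreg v
    have h2 : (univ.filter (fun e => v ∈ inc e)).Nonempty := by
      rw [← Finset.card_pos]
      omega
    obtain ⟨e, he⟩ := h2
    exact ⟨e, (mem_filter.1 he).2⟩
  choose d0 hd0 using hdef
  refine ⟨fun v => if h : v ∈ LL inc s X then F ⟨v, h⟩ else Sum.inl v,
    fun v => if h : v ∈ LL inc s X then G ⟨v, h⟩ else d0 v, ?_, ?_, ?_, ?_⟩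
  · intro u hu
    simp only [dif_pos hu]
    exact hmemU ⟨u, hu⟩ _ (hGR ⟨u, hu⟩)
  · intro u hu v hv
    simp only [dif_pos hu] at hv ⊢
    have h1 := hGs ⟨u, hu⟩
    rw [hv] at h1
    have h2 : tau (G ⟨u, hu⟩) = Sum.inl v := by
      rcases htau' : tau (G ⟨u, hu⟩) with v' | D
      · rw [htau'] at h1
        simp only [slotsOf, Sum.elim_inl, mem_singleton] at h1
        rw [Sum.inl.inj h1]
      · rw [htau'] at h1
        simp [slotsOf] at h1
    exact htl _ v h2
  · intro u hu D b hv
    simp only [dif_pos hu] at hv ⊢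
    have h1 := hGs ⟨u, hu⟩
    rw [hv] at h1
    have h2 : tau (G ⟨u, hu⟩) = Sum.inr D := by
      rcases htau' : tau (G ⟨u, hu⟩) with v' | D'
      · rw [htau'] at h1
        simp [slotsOf] at h1
      · rw [htau'] at h1
        simp only [slotsOf, Sum.elim_inr, mem_singleton, mem_insert] at h1
        have h5 : D = D' := by
          rcases h1 with h1 | h1
          · exact (Prod.mk.inj (Sum.inr.inj h1)).1
          · exact (Prod.mk.inj (Sum.inr.inj h1)).1
        rw [h5]
    exact hEntry ⟨u, hu⟩ _ (hGR ⟨u, hu⟩) D h2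
  · intro u hu u' hu' h
    simp only [dif_pos hu, dif_pos hu'] at h
    exact congrArg Subtype.val (hFi h)

end Pool.Agent.W28.CF3
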